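import Pool.Agent.N754.FV.Stm
import Pool.Agent.W603.LV.Loc
import Pool.Agent.W603.LV.Spec

/-! The inequality for Wronskians of bases of a space of functions regular outside `S`. -/

set_option autoImplicit false

open FF Pool.Agent.W603.LV

namespace Pool.Agent.N717.FV

variable {k K : Type*} [Field k] [Field K] [Algebra k K]

theorem iter_smul (D : Derivation k K K) (c : k) (f : K) (r : ℕ) :
    (⇑D)^[r] (c • f) = c • (⇑D)^[r] f := by
  induction r with
  | zero => rfl
  | succ r ih => rw [Function.iterate_succ_apply', Function.iterate_succ_apply', ih, D.map_smul]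

/-- Wronskians of families in the span of a family. -/
theorem wr_lin (D : Derivation k K K) {N : ℕ} (f g : Fin N → K)
    (h : ∀ a, g a ∈ Submodule.span k (Set.range f)) :
    ∃ d : k, wr D g = algebraMap k K d * wr D f := by
  have h1 : ∀ a, ∃ c : Fin N → k, ∑ l, c l • f l = g a :=
    fun a => (Submodule.mem_span_range_iff_exists_fun k).1 (h a)
  choose c hc using h1
  refine ⟨(Matrix.of c).det, ?_⟩
  have h2 : wm (n := N) D g = (algebraMap k K).mapMatrix (Matrix.of c) * wm (n := N) D f := by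
    ext i r
    rw [Matrix.mul_apply]
    change (⇑D)^[(r : ℕ)] (g i) = ∑ l, algebraMap k K (c i l) * (⇑D)^[(r : ℕ)] (f l)
    rw [← hc i, iter_sum]
    refine Finset.sum_congr rfl fun l _ => ?_
    rw [iter_smul, Algebra.smul_def]
  unfold wr
  rw [h2, Matrix.det_mul, RingHom.map_det]

variable [CharZero k] [IsFF k K] [IsAlgClosed k]

theorem ge_der (P : Place k K) {D : Derivation k K K} (hD : D ≠ 0) {m : ℤ} {f : K}
    (hf : Ge P m f) : Ge P (m + (vo P D - 1)) (D f) := by
  by_cases h0 : f = 0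
  · rw [h0, map_zero]; exact Ge.zero
  have hm := hf.resolve_left h0
  by_cases h1 : P.ord f = 0
  · obtain ⟨g, hg, e⟩ := der_mul P (ord_unif P) hD (f := f) (Or.inr h1.ge)
    rw [e]
    have h2 : Ge P (vo P D) (D (unif P)) := Or.inr le_rfl
    exact (h2.mul hg).mono (by omega)
  · obtain ⟨h2, h3⟩ := ord_der P hD h1
    right
    rw [h3]; omega

theorem ge_der_iter (P : Place k K) {D : Derivation k K K} (hD : D ≠ 0) {m : ℤ} {f : K}
    (hf : Ge P m f) (r : ℕ) : Ge P (m + (r : ℤ) * (vo P D - 1)) ((⇑D)^[r] f) := by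
  induction r with
  | zero => simpa using hf
  | succ r ih =>
    rw [Function.iterate_succ_apply']
    refine (ge_der P hD ih).mono (le_of_eq ?_)
    push_cast; ring

/-- The order of a Wronskian at a place, general bound. -/
theorem wr_in (P : Place k K) {D : Derivation k K K} (hD : D ≠ 0) {N : ℕ} (f : Fin N → K)
    (hW : wr D f ≠ 0) : ∑ a, P.ord (f a) + tri N * (vo P D - 1) ≤ P.ord (wr D f) := by
  have h1 : Ge P (∑ a, P.ord (f a) + tri N * (vo P D - 1)) (wr D f) := by
    unfold wr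
    refine ge_det P _ _ (fun i r => P.ord (f i) + ((r : ℕ) : ℤ) * (vo P D - 1))
      (fun i r => ge_der_iter P hD (Or.inr le_rfl) r) (fun σ => ?_)
    rw [Finset.sum_add_distrib, ← Finset.sum_mul]
    have hσ : ∑ i, P.ord (f (σ i)) = ∑ i, P.ord (f i) := Equiv.sum_comp σ (fun i => P.ord (f i))
    rw [hσ]; rfl
  exact h1.resolve_left hW

/-- The order of a Wronskian of regular functions at a place. -/
theorem wr_out (P : Place k K) {D : Derivation k K K} (hD : D ≠ 0) {N : ℕ} (f : Fin N → K)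
    (hf : ∀ a, Ge P 0 (f a)) (hW : wr D f ≠ 0) : tri N * vo P D ≤ P.ord (wr D f) := by
  obtain ⟨π, hπd⟩ : ∃ π, π = unif P := ⟨_, rfl⟩
  have hπ : P.ord π = 1 := hπd ▸ ord_unif P
  obtain ⟨u, hu⟩ : ∃ u, u = D π := ⟨_, rfl⟩
  have hu0 : u ≠ 0 := hu ▸ der_pi_ne_zero hD P hπ
  obtain ⟨δ, hδd⟩ : ∃ δ : Derivation k K K, δ = u⁻¹ • D := ⟨_, rfl⟩
  have hδ : δ π = 1 := by
    rw [hδd, Derivation.coe_smul, Pi.smul_apply, smul_eq_mul, ← hu, inv_mul_cancel₀ hu0]
  have hDδ : D = u • δ := by
    rw [hδd, smul_smul, mul_inv_cancel₀ hu0, one_smul]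
  have hvo : Ge P (vo P D) u := by
    right
    rw [hu, hπd]; rfl
  have h2 : wr D f = (∏ r : Fin N, u ^ (r : ℕ) * 1) * wr δ f := by
    have h3 := wr_change δ u 1 f
    rw [← hDδ] at h3
    simpa only [one_mul] using h3
  have h4 : Ge P (∑ r : Fin N, ((r : ℕ) : ℤ) * vo P D) (∏ r : Fin N, u ^ (r : ℕ) * 1) := by
    refine Ge.prod _ _ _ fun r _ => ?_
    rw [mul_one]
    exact hvo.pow r
  have h5 : Ge P 0 (wr δ f) := by
    unfold wr
    refine ge_det P _ _ (fun _ _ => 0) (fun i r => ?_) (fun σ => by simp)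
    have := ge_iter P hπ hδ (a := 0) (g := f i) (by simpa using hf i) r
    rw [Nat.zero_sub, Nat.cast_zero] at this
    exact this
  have h6 : Ge P (tri N * vo P D) (wr D f) := by
    rw [h2]
    refine (h4.mul h5).mono (le_of_eq ?_)
    rw [add_zero, ← Finset.sum_mul]; rfl
  exact h6.resolve_left hW

open Pool.Agent.N754.FV in
/-- The inequality for Wronskians. -/
theorem wr : WR := by
  intro k K _ _ _ _ _ _ S N κ B hreg hli hspan s
  classical
  obtain ⟨P0, -⟩ := exists_place_not_mem (k := k) (K := K) (∅ : Finset (Place k K))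
  obtain ⟨c0, hc0⟩ : ∃ c0, c0 = s P0 := ⟨_, rfl⟩
  obtain ⟨D, hD⟩ : ∃ D : Derivation k K K, D ≠ 0 := ⟨der k K, der_ne⟩
  have hW : ∀ c, Pool.Agent.W603.LV.wr D (B c) ≠ 0 := fun c => wr_ne_zero hD _ (hli c)
  have hord : ∀ c (P : Place k K), P.ord (Pool.Agent.W603.LV.wr D (B c)) =
      P.ord (Pool.Agent.W603.LV.wr D (B c0)) := by
    intro c P
    obtain ⟨d, hd⟩ := wr_lin D (B c0) (B c) (fun a => by
      rw [hspan c0 c]
      exact Submodule.subset_span ⟨a, rfl⟩)
    have hd0 : d ≠ 0 := by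
      rintro rfl
      rw [map_zero, zero_mul] at hd
      exact hW c hd
    rw [hd, P.ord_mul (by rw [Ne, map_eq_zero]; exact hd0) (hW c0), P.ord_const hd0, zero_add]
  obtain ⟨T1, hT1⟩ := exists_supp (k := k) (Finset.univ : Finset (Fin 1))
    ![Pool.Agent.W603.LV.wr D (B c0)]
  obtain ⟨T, hT⟩ : ∃ T, T = S ∪ T1 ∪ (vo_finite hD).toFinset := ⟨_, rfl⟩
  have hST : S ⊆ T := by
    intro P hP
    rw [hT, Finset.mem_union, Finset.mem_union]
    exact Or.inl (Or.inl hP)
  have e1 : ∑ P ∈ T, P.ord (Pool.Agent.W603.LV.wr D (B c0)) = 0 := by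
    refine sum_ord_finset _ T fun P hP => ?_
    rw [hT, Finset.mem_union, Finset.mem_union]
    exact Or.inl (Or.inr (hT1 0 (Finset.mem_univ _) P hP))
  have e2 : ∑ P ∈ T, vo P D = - canDeg k K := by
    refine canDeg_finset hD T fun P hP => ?_
    rw [hT, Finset.mem_union]
    right
    rw [Set.Finite.mem_toFinset]
    exact hP
  have h3 : ∑ P ∈ T, (tri N * vo P D + if P ∈ S then (∑ a, P.ord (B (s P) a) - tri N) else 0) ≤
      ∑ P ∈ T, P.ord (Pool.Agent.W603.LV.wr D (B c0)) := by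
    refine Finset.sum_le_sum fun P _ => ?_
    split_ifs with h
    · have := wr_in P hD (B (s P)) (hW _)
      rw [hord] at this
      linarith
    · have := wr_out P hD (B c0) (fun a => hreg c0 a P h) (hW _)
      linarith
  rw [e1, Finset.sum_add_distrib, ← Finset.mul_sum, e2, Finset.sum_ite_mem,
    Finset.inter_eq_right.2 hST, Finset.sum_sub_distrib, Finset.sum_const, nsmul_eq_mul] at h3
  unfold euler
  rw [mul_add]
  linarith

end Pool.Agent.N717.FV
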